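import Pool.Agent.W838.DC.Zs

/-!
# Stabilising reflections: the non commuting case
-/

set_option autoImplicit false

namespace Pool.Agent.W589.DC

open Pool.Agent.W838.DC

variable {B : Type*} {M : CoxeterMatrix B} {W : Type*} [Group W] (cs : CoxeterSystem M W)

theorem ble_up {t x : W} (ht : cs.IsReflection t) (h : cs.length x < cs.length (t * x)) :
    BLe cs x (t * x) := Relation.ReflTransGen.single ⟨t, ht, rfl, h⟩

theorem ble_down {t x : W} (ht : cs.IsReflection t) (h : cs.length (t * x) < cs.length x) :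
    BLe cs (t * x) x :=
  Relation.ReflTransGen.single ⟨t, ht, by rw [← mul_assoc, ht.mul_self, one_mul], h⟩

theorem ble_len {x y : W} (h : BLe cs x y) : cs.length x ≤ cs.length y := by
  induction h with
  | refl => exact le_rfl
  | tail _ h2 ih =>
    obtain ⟨t, _, _, h3⟩ := h2
    omega

theorem ble_trans {x y z : W} (h : BLe cs x y) (h' : BLe cs y z) : BLe cs x z :=
  Relation.ReflTransGen.trans h h'

theorem ble_refl (x : W) : BLe cs x x := Relation.ReflTransGen.refl

/-- the smaller one of `q` and `t * q` -/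
noncomputable def mn (t q : W) : W := if cs.length (t * q) < cs.length q then t * q else q

variable {cs}

theorem st_top {u v t : W} (S : Stab cs u v t) (huv : BLe cs u v) :
    InInt cs u v (t * v) ∧ cs.length v = cs.length (t * v) + 1 := by
  have hv : InInt cs u v v := ⟨huv, ble_refl cs v⟩
  have h := S.maps v hv
  have h2 := ble_len cs h.2
  rcases S.len v hv with h1 | h1
  · omega
  · exact ⟨h, h1⟩

theorem st_down {u v t : W} (S : Stab cs u v t) (huv : BLe cs u v) {q : W} (hq : InInt cs u v q) :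
    (cs.length q < cs.length (t * q) → InInt cs u (t * v) q) ∧
      (cs.length (t * q) < cs.length q → InInt cs u (t * v) (t * q)) := by
  have hv : InInt cs u v v := ⟨huv, ble_refl cs v⟩
  have ht := (st_top S huv).2
  obtain ⟨_, h2, h3⟩ := S.lift q v hq hv hq.2 (by omega)
  exact ⟨fun h => ⟨hq.1, h2 h⟩, fun h => ⟨(S.maps q hq).1, h3 h⟩⟩

theorem st_mn {u v t : W} (S : Stab cs u v t) (huv : BLe cs u v) {q : W} (hq : InInt cs u v q) :
    InInt cs u (t * v) (mn cs t q) := by
  obtain ⟨h1, h2⟩ := st_down S huv hq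
  unfold mn
  split_ifs with h
  · exact h2 h
  · apply h1
    rcases S.len q hq with h3 | h3 <;> omega

theorem st_mono {u v t : W} (S : Stab cs u v t) {q p : W} (hq : InInt cs u v q)
    (hp : InInt cs u v p) (hqp : BLe cs q p) : BLe cs (mn cs t q) (mn cs t p) := by
  by_cases hp1 : cs.length (t * p) < cs.length p
  · obtain ⟨_, h2, h3⟩ := S.lift q p hq hp hqp hp1
    have e : mn cs t p = t * p := if_pos hp1
    rw [e]
    unfold mn
    split_ifs with h
    · exact h3 h
    · apply h2
      rcases S.len q hq with h4 | h4 <;> omega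
  · have e : mn cs t p = p := if_neg hp1
    rw [e]
    unfold mn
    split_ifs with h
    · exact ble_trans cs (ble_down cs S.refl h) hqp
    · exact hqp

theorem st_up {u v t : W} (S : Stab cs u v t) {q p : W} (hq : InInt cs u v q)
    (hp : InInt cs u v p) (hqp : BLe cs q p) (h : cs.length p < cs.length (t * p)) :
    BLe cs (t * q) (t * p) := by
  have h1 : t * (t * p) = p := by rw [← mul_assoc, S.refl.mul_self, one_mul]
  exact (S.lift q (t * p) hq (S.maps p hp) (ble_trans cs hqp (ble_up cs S.refl h))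
    (by rw [h1]; exact h)).1

theorem hexA (L : W → ℕ) (a b v z : W) (haa : ∀ x, a * (a * x) = x) (hbb : ∀ x, b * (b * x) = x)
    (hbr : ∀ x, b * (a * (b * x)) = a * (b * (a * x)))
    (l1 : L v = L (a * v) + 1) (l2 : L (a * v) = L (b * (a * v)) + 1)
    (l3 : L (b * (a * v)) = L (a * (b * (a * v))) + 1)
    (hz : v = z ∨ v = a * z ∨ v = (a * b * a) * z ∨ v = (a * b * a) * (a * z) ∨
      v = a * ((a * b * a) * z) ∨ v = a * ((a * b * a) * (a * z)))
    (i1 : L z < L (a * z)) (i2 : L (a * z) < L ((a * b * a) * (a * z)))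
    (i3 : L ((a * b * a) * (a * z)) < L (a * ((a * b * a) * (a * z))))
    (i4 : L z < L ((a * b * a) * z)) (i5 : L ((a * b * a) * z) < L (a * ((a * b * a) * z)))
    (i6 : L (a * ((a * b * a) * z)) < L ((a * b * a) * (a * ((a * b * a) * z)))) : False := by
  rcases hz with rfl | rfl | rfl | rfl | rfl | rfl
  all_goals simp only [mul_assoc, haa, hbb, hbr] at l1 l2 l3 i1 i2 i3 i4 i5 i6
  all_goals omega

theorem hexB (L : W → ℕ) (a b v z : W) (haa : ∀ x, a * (a * x) = x) (hbb : ∀ x, b * (b * x) = x)
    (hbr : ∀ x, b * (a * (b * x)) = a * (b * (a * x)))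
    (l1 : L v = L (a * v) + 1) (l2 : L (a * v) = L (b * (a * v)) + 1)
    (l3 : L (b * (a * v)) = L (a * (b * (a * v))) + 1)
    (hz : v = z ∨ v = (a * b * a) * z ∨ v = b * z ∨ v = b * ((a * b * a) * z) ∨
      v = (a * b * a) * (b * z) ∨ v = (a * b * a) * (b * ((a * b * a) * z)))
    (i1 : L z < L ((a * b * a) * z)) (i2 : L ((a * b * a) * z) < L (b * ((a * b * a) * z)))
    (i3 : L (b * ((a * b * a) * z)) < L ((a * b * a) * (b * ((a * b * a) * z))))
    (i4 : L z < L (b * z)) (i5 : L (b * z) < L ((a * b * a) * (b * z)))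
    (i6 : L ((a * b * a) * (b * z)) < L (b * ((a * b * a) * (b * z)))) : False := by
  rcases hz with rfl | rfl | rfl | rfl | rfl | rfl
  all_goals simp only [mul_assoc, haa, hbb, hbr] at l1 l2 l3 i1 i2 i3 i4 i5 i6
  all_goals omega

variable (cs) in
/-- the non commuting case -/
theorem en (h : S_HEX cs) : S_EN cs := by
  intro u v a b A B1 A2 hab
  have ha := A.refl
  have hb := B1.refl
  by_cases huv : BLe cs u v
  swap
  · have hno : ∀ q, ¬ InInt cs u v q := fun q hq => huv (ble_trans cs hq.1 hq.2)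
    exact ⟨hb, fun q hq => absurd hq (hno q), fun q hq => absurd hq (hno q),
      fun q _ hq => absurd hq (hno q)⟩
  have haa : ∀ x, a * (a * x) = x := fun x => by rw [← mul_assoc, ha.mul_self, one_mul]
  have hbb : ∀ x, b * (b * x) = x := fun x => by rw [← mul_assoc, hb.mul_self, one_mul]
  obtain ⟨hbr0, hhex⟩ := h a b ha hb hab
  have hbr : ∀ x, b * (a * (b * x)) = a * (b * (a * x)) := by
    intro x
    have := congrArg (· * x) hbr0
    simp only [mul_assoc] at this
    exact this.symm
  obtain ⟨hv1, l1⟩ := st_top A huv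
  obtain ⟨hv2, l2⟩ := st_top B1 hv1.1
  obtain ⟨hv3, l3⟩ := st_top A2 hv2.1
  have hex : ∀ q, Hex cs a b q := by
    rcases hhex with h | h | h
    · exact h
    · exfalso
      obtain ⟨z, hz, i1, i2, i3, i4, i5, i6⟩ := h v
      exact hexA cs.length a b v z haa hbb hbr l1 l2 l3 hz i1 i2 i3 i4 i5 i6
    · exfalso
      obtain ⟨z, hz, i1, i2, i3, i4, i5, i6⟩ := h v
      exact hexB cs.length a b v z haa hbb hbr l1 l2 l3 hz i1 i2 i3 i4 i5 i6
  -- inclusions
  have sub1 : ∀ x, InInt cs u (a * v) x → InInt cs u v x :=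
    fun x hx => ⟨hx.1, ble_trans cs hx.2 hv1.2⟩
  have sub2 : ∀ x, InInt cs u (b * (a * v)) x → InInt cs u (a * v) x :=
    fun x hx => ⟨hx.1, ble_trans cs hx.2 hv2.2⟩
  have sub3 : ∀ x, InInt cs u (a * (b * (a * v))) x → InInt cs u (b * (a * v)) x :=
    fun x hx => ⟨hx.1, ble_trans cs hx.2 hv3.2⟩
  have key : ∀ q, InInt cs u v q → ∃ z,
      (q = z ∨ q = a * z ∨ q = b * z ∨ q = b * (a * z) ∨ q = a * (b * z) ∨
        q = a * (b * (a * z))) ∧
      mn cs a (mn cs b (mn cs a q)) = z ∧ InInt cs u (a * (b * (a * v))) z ∧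
      InInt cs u (b * (a * v)) (a * z) ∧ InInt cs u (a * v) (b * z) ∧
      InInt cs u (a * v) (b * (a * z)) ∧ InInt cs u v (a * (b * z)) ∧
      InInt cs u v (a * (b * (a * z))) ∧ cs.length (a * z) = cs.length z + 1 ∧
      cs.length (b * z) = cs.length z + 1 ∧ cs.length (b * (a * z)) = cs.length z + 2 ∧
      cs.length (a * (b * z)) = cs.length z + 2 ∧
      cs.length (a * (b * (a * z))) = cs.length z + 3 := by
    intro q hq
    obtain ⟨z, hz, i1, i2, i3, i4, i5, i6⟩ := hex q
    have hmn : mn cs a (mn cs b (mn cs a q)) = z := by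
      rw [hbr] at i6
      have e1 : mn cs a z = z := if_neg (by omega)
      have e2 : mn cs b z = z := if_neg (by omega)
      have e3 : mn cs a (a * z) = z := by
        unfold mn; rw [haa]; exact if_pos i1
      have e4 : mn cs b (b * z) = z := by
        unfold mn; rw [hbb]; exact if_pos i4
      have e5 : mn cs a (b * z) = b * z := if_neg (by omega)
      have e6 : mn cs a (b * (a * z)) = b * (a * z) := if_neg (by omega)
      have e7 : mn cs b (b * (a * z)) = a * z := by
        unfold mn; rw [hbb]; exact if_pos i2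
      have e8 : mn cs a (a * (b * z)) = b * z := by
        unfold mn; rw [haa]; exact if_pos i5
      have e9 : mn cs a (a * (b * (a * z))) = b * (a * z) := by
        unfold mn; rw [haa]; exact if_pos i3
      rcases hz with h0 | h0 | h0 | h0 | h0 | h0 <;> rw [h0]
      · rw [e1, e2, e1]
      · rw [e3, e2, e1]
      · rw [e5, e4, e1]
      · rw [e6, e7, e3]
      · rw [e8, e4, e1]
      · rw [e9, e7, e3]
    have m3 : InInt cs u (a * (b * (a * v))) z := by
      rw [← hmn]
      exact st_mn A2 hv2.1 (st_mn B1 hv1.1 (st_mn A huv hq))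
    have m2 : InInt cs u (b * (a * v)) (a * z) := A2.maps z (sub3 z m3)
    have m1 : InInt cs u (a * v) (b * z) := B1.maps z (sub2 z (sub3 z m3))
    have m1' : InInt cs u (a * v) (b * (a * z)) := B1.maps _ (sub2 _ m2)
    have m0 : InInt cs u v (a * (b * z)) := A.maps _ (sub1 _ m1)
    have m0' : InInt cs u v (a * (b * (a * z))) := A.maps _ (sub1 _ m1')
    have n1 : cs.length (a * z) = cs.length z + 1 := by
      rcases A2.len z (sub3 z m3) with h5 | h5 <;> omega
    have n2 : cs.length (b * z) = cs.length z + 1 := by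
      rcases B1.len z (sub2 z (sub3 z m3)) with h5 | h5 <;> omega
    have n3 : cs.length (b * (a * z)) = cs.length z + 2 := by
      rcases B1.len _ (sub2 _ m2) with h5 | h5 <;> omega
    have n4 : cs.length (a * (b * z)) = cs.length z + 2 := by
      rcases A.len _ (sub1 _ m1) with h5 | h5 <;> omega
    have n5 : cs.length (a * (b * (a * z))) = cs.length z + 3 := by
      rcases A.len _ (sub1 _ m1') with h5 | h5 <;> omega
    exact ⟨z, hz, hmn, m3, m2, m1, m1', m0, m0', n1, n2, n3, n4, n5⟩
  refine ⟨hb, fun q hq => ?_, fun q hq => ?_, fun q p hq hp hqp hbp => ?_⟩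
  · obtain ⟨z, hz, -, m3, m2, m1, m1', m0, m0', n1, n2, n3, n4, n5⟩ := key q hq
    rcases hz with rfl | rfl | rfl | rfl | rfl | rfl
    · exact sub1 _ m1
    · exact sub1 _ m1'
    · rw [hbb]; exact sub1 _ (sub2 _ (sub3 _ m3))
    · rw [hbb]; exact sub1 _ (sub2 _ m2)
    · rw [hbr]; exact m0'
    · rw [← hbr, hbb]; exact m0
  · obtain ⟨z, hz, -, m3, m2, m1, m1', m0, m0', n1, n2, n3, n4, n5⟩ := key q hq
    rcases hz with rfl | rfl | rfl | rfl | rfl | rfl
    · omega
    · omega
    · rw [hbb]; omega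
    · rw [hbb]; omega
    · rw [hbr]; omega
    · have e : b * (a * (b * (a * z))) = a * (b * z) := by rw [← hbr, hbb]
      rw [e]; omega
  · obtain ⟨z', hz', hmz', m3', m2', m1', m1'', m0', m0'', n1', n2', n3', n4', n5'⟩ := key p hp
    obtain ⟨z, hz, hmz, m3, m2, m1, m1a, m0, m0a, n1, n2, n3, n4, n5⟩ := key q hq
    have hzz : BLe cs z z' := by
      rw [← hmz, ← hmz']
      exact st_mono A2 (st_mn B1 hv1.1 (st_mn A huv hq)) (st_mn B1 hv1.1 (st_mn A huv hp))
        (st_mono B1 (st_mn A huv hq) (st_mn A huv hp) (st_mono A hq hp hqp))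
    have hsmall : InInt cs u (a * v) p → BLe cs (b * q) p ∧
        (cs.length q < cs.length (b * q) → BLe cs q (b * p)) ∧
        (cs.length (b * q) < cs.length q → BLe cs (b * q) (b * p)) := by
      intro hp1
      exact B1.lift q p ⟨hq.1, ble_trans cs hqp hp1.2⟩ hp1 hqp hbp
    rcases hz' with h0 | h0 | h0 | h0 | h0 | h0
    · rw [h0] at hbp; omega
    · rw [h0] at hbp; omega
    · exact hsmall (by rw [h0]; exact m1')
    · exact hsmall (by rw [h0]; exact m1'')
    · rw [h0, hbr] at hbp; omega
    · -- the top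
      have e : b * p = a * (b * z') := by rw [h0, ← hbr, hbb]
      -- inequalities
      have k1 : BLe cs z' (b * z') := ble_up cs hb (by omega)
      have k2 : BLe cs (b * z') (a * (b * z')) := ble_up cs ha (by omega)
      have r1 : BLe cs z (a * (b * z')) := ble_trans cs hzz (ble_trans cs k1 k2)
      have r2 : BLe cs (a * z) (a * (b * z')) :=
        st_up A (sub1 _ (sub2 _ (sub3 _ m3))) (sub1 _ m1') (ble_trans cs hzz k1) (by omega)
      have r3 : BLe cs (b * z) (b * z') :=
        st_up B1 (sub2 _ (sub3 _ m3)) (sub2 _ (sub3 _ m3')) hzz (by omega)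
      have r4 : BLe cs (a * (b * z)) (a * (b * z')) :=
        st_up A (sub1 _ m1) (sub1 _ m1') r3 (by omega)
      have r5 : BLe cs (a * z) (a * z') := st_up A2 (sub3 _ m3) (sub3 _ m3') hzz (by omega)
      have r6 : BLe cs (b * (a * z)) (b * (a * z')) :=
        st_up B1 (sub2 _ m2) (sub2 _ m2') r5 (by omega)
      have r7 : BLe cs (a * (b * (a * z))) (a * (b * (a * z'))) :=
        st_up A (sub1 _ m1a) (sub1 _ m1'') r6 (by omega)
      have r8 : BLe cs (a * (b * z')) p := by
        have : p = b * (a * (b * z')) := by rw [h0, hbr]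
        rw [this]
        exact ble_up cs hb (by rw [hbr]; omega)
      have r9 : BLe cs (b * z) p := ble_trans cs r3 (ble_trans cs k2 r8)
      have r10 : BLe cs (b * (a * z)) p := by
        rw [h0]
        exact ble_trans cs r6 (ble_up cs ha (by omega))
      rw [e]
      rcases hz with h1 | h1 | h1 | h1 | h1 | h1
      · rw [h1]
        exact ⟨r9, fun _ => r1, fun hh => by omega⟩
      · rw [h1]
        exact ⟨r10, fun _ => r2, fun hh => by omega⟩
      · rw [h1, hbb]
        exact ⟨ble_trans cs r1 r8, fun hh => by omega, fun _ => r1⟩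
      · rw [h1, hbb]
        exact ⟨ble_trans cs r2 r8, fun hh => by omega, fun _ => r2⟩
      · rw [h1, hbr]
        refine ⟨?_, fun _ => r4, fun hh => by omega⟩
        rw [h0]; exact r7
      · have e2 : b * q = a * (b * z) := by rw [h1, ← hbr, hbb]
        rw [e2, h1]
        exact ⟨ble_trans cs r4 r8, fun hh => by omega, fun _ => r4⟩

end Pool.Agent.W589.DC
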